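import Pool.Agent.Lib.MP_eee7a8_ag.TB.Iface4
import Pool.Agent.Lib.MP_eee7a8_ag.TB.A.Coord

/-!
# TAGBR, module CASEA2: the Hartogs argument in a once-punctured digon
(uses HART2 INDK LOBE CUT DIGONA DIGONB DIGONC HORO VPAR STAB VINV NONZERO)
-/

open Matrix

namespace Pool.Agent.Lib.MP_eee7a8_ag.TB.C49

variable {G : Subgroup SLZ} {K : Type} [Field K] [Algebra ℂ K]

theorem lam_same (L : Lam G K) {a b c d : Cusp} (h : SameArc G a b c d) :
    L.lam c d = L.lam a b := by
  obtain ⟨g, hg, ⟨rfl, rfl⟩ | ⟨rfl, rfl⟩⟩ := h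
  · exact L.inv g hg a b
  · rw [L.symm, L.inv g hg]

/-- Some power of `t` times `f` is in `B`. -/
def PowIn (B : Subalgebra ℂ K) (t f : K) : Prop := ∃ N : ℕ, t ^ N * f ∈ B

theorem PowIn.of_mem {B : Subalgebra ℂ K} {t f : K} (h : f ∈ B) : PowIn B t f :=
  ⟨0, by rwa [pow_zero, one_mul]⟩

theorem PowIn.mono {B B' : Subalgebra ℂ K} (hB : B ≤ B') {t f : K} (h : PowIn B t f) :
    PowIn B' t f := by
  obtain ⟨N, hN⟩ := h
  exact ⟨N, hB hN⟩

theorem PowIn.of_inv (B : Subalgebra ℂ K) (t : K) : PowIn B t t⁻¹ := by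
  refine ⟨1, ?_⟩
  rw [pow_one]
  by_cases h : t = 0
  · rw [h, zero_mul]; exact B.zero_mem
  · rw [mul_inv_cancel₀ h]; exact B.one_mem

theorem PowIn.of_adjoin {B : Subalgebra ℂ K} {t : K} (ht : t ∈ B) {s : Set K}
    (hs : ∀ x ∈ s, PowIn B t x) {f : K} (hf : f ∈ Algebra.adjoin ℂ s) : PowIn B t f := by
  induction hf using Algebra.adjoin_induction with
  | mem x hx => exact hs x hx
  | algebraMap r => exact PowIn.of_mem (B.algebraMap_mem r)
  | add x y _ _ hx hy =>
    obtain ⟨N, hN⟩ := hx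
    obtain ⟨M, hM⟩ := hy
    refine ⟨N + M, ?_⟩
    have e : t ^ (N + M) * (x + y) = t ^ M * (t ^ N * x) + t ^ N * (t ^ M * y) := by ring
    rw [e]
    exact B.add_mem (B.mul_mem (B.pow_mem ht _) hN) (B.mul_mem (B.pow_mem ht _) hM)
  | mul x y _ _ hx hy =>
    obtain ⟨N, hN⟩ := hx
    obtain ⟨M, hM⟩ := hy
    refine ⟨N + M, ?_⟩
    have e : t ^ (N + M) * (x * y) = (t ^ N * x) * (t ^ M * y) := by ring
    rw [e]
    exact B.mul_mem hN hM

theorem lam_mem_RA (L : Lam G K) (a b : Cusp) : L.lam a b ∈ L.RA :=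
  Algebra.subset_adjoin (Or.inl ⟨a, b, fun _ _ h => h.elim, rfl⟩)

theorem tr_mem_RA (L : Lam G K) {g : SLZ} (hg : g ∈ G) (h : 2 < |g.1.trace|) :
    L.tr g ∈ L.RA :=
  Algebra.subset_adjoin (Or.inr ⟨g, hg, h, fun _ _ h => h.elim, rfl⟩)

theorem RA_le_RI (L : Lam G K) (F : Cusp → Cusp → Prop) : L.RA ≤ L.RI F := fun _ hx =>
  Algebra.subset_adjoin (Or.inl hx)

theorem inv_mem_RI (L : Lam G K) {F : Cusp → Cusp → Prop} {a b : Cusp} (h : F a b) :
    (L.lam a b)⁻¹ ∈ L.RI F :=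
  Algebra.subset_adjoin (Or.inr ⟨a, b, h, rfl⟩)

theorem RI_mono (L : Lam G K) {F F' : Cusp → Cusp → Prop} (h : ∀ a b, F a b → F' a b) :
    L.RI F ≤ L.RI F' := by
  apply Algebra.adjoin_mono
  rintro x (hx | ⟨a, b, hab, rfl⟩)
  · exact Or.inl hx
  · exact Or.inr ⟨a, b, h a b hab, rfl⟩

theorem ri_pow (L : Lam G K) {F : Cusp → Cusp → Prop} {p q : Cusp} {f : K}
    (hf : f ∈ L.RI (AddArc G F p q)) : PowIn (L.RI F) (L.lam p q) f := by
  refine PowIn.of_adjoin (RA_le_RI L F (lam_mem_RA L p q)) ?_ hf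
  rintro x (hx | ⟨a, b, hab | hab, rfl⟩)
  · exact PowIn.of_mem (RA_le_RI L F hx)
  · exact PowIn.of_mem (inv_mem_RI L hab)
  · rw [lam_same L hab]; exact PowIn.of_inv _ _

theorem riv_pow (L : Lam G K) {F : Cusp → Cusp → Prop} {p q : Cusp} {u f : K}
    (hf : f ∈ Algebra.adjoin ℂ ((L.RI (AddArc G F p q) : Set K) ∪ {u})) :
    PowIn (Algebra.adjoin ℂ ((L.RI F : Set K) ∪ {u})) (L.lam p q) f := by
  have hle : L.RI F ≤ Algebra.adjoin ℂ ((L.RI F : Set K) ∪ {u}) := fun x hx =>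
    Algebra.subset_adjoin (Or.inl hx)
  refine PowIn.of_adjoin (hle (RA_le_RI L F (lam_mem_RA L p q))) ?_ hf
  rintro x (hx | hx)
  · exact (ri_pow L hx).mono hle
  · exact PowIn.of_mem (Algebra.subset_adjoin (Or.inr hx))

/-- The last step: a binomial expansion. -/
theorem unit_step {B : Subalgebra ℂ K} {a b f : K} (ha : a ∈ B) (hb : b ∈ B)
    (h1 : PowIn B a f) (h2 : PowIn B b f) (hu : (a + b)⁻¹ ∈ B) (h0 : a + b ≠ 0) : f ∈ B := by
  obtain ⟨N, hN⟩ := h1
  obtain ⟨M, hM⟩ := h2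
  have h3 : (a + b) ^ (N + M) * f ∈ B := by
    rw [add_pow, Finset.sum_mul]
    apply B.sum_mem
    intro m hm
    have hm' : m ≤ N + M := by
      have := Finset.mem_range.1 hm
      omega
    rcases le_total N m with h | h
    · obtain ⟨k, rfl⟩ := Nat.exists_eq_add_of_le h
      have e : a ^ (N + k) * b ^ (N + M - (N + k)) * (((N + M).choose (N + k) : ℕ) : K) * f =
          a ^ k * b ^ (N + M - (N + k)) * (((N + M).choose (N + k) : ℕ) : K) * (a ^ N * f) := by
        ring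
      rw [e]
      exact B.mul_mem (B.mul_mem (B.mul_mem (B.pow_mem ha _) (B.pow_mem hb _))
        (natCast_mem B _)) hN
    · obtain ⟨k, hk⟩ := Nat.exists_eq_add_of_le (show M ≤ N + M - m by omega)
      rw [hk]
      have e : a ^ m * b ^ (M + k) * (((N + M).choose m : ℕ) : K) * f =
          a ^ m * b ^ k * (((N + M).choose m : ℕ) : K) * (b ^ M * f) := by
        ring
      rw [e]
      exact B.mul_mem (B.mul_mem (B.mul_mem (B.pow_mem ha _) (B.pow_mem hb _))
        (natCast_mem B _)) hM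
  have h4 : f = ((a + b)⁻¹) ^ (N + M) * ((a + b) ^ (N + M) * f) := by
    rw [← mul_assoc, ← mul_pow, inv_mul_cancel₀ h0, one_pow, one_mul]
  rw [h4]
  exact B.mul_mem (B.pow_mem hu _) h3

/-- lambda lengths and signed lambda lengths. -/
theorem lam_mem_of_sl (L : Lam G K) (B : Subalgebra ℂ K) {a b : Cusp} (h : L.sl a b ∈ B) :
    L.lam a b ∈ B := by
  by_cases hab : a = b
  · rw [hab, L.self]; exact B.zero_mem
  · have hd := dt_ne_zero hab
    have e : L.lam a b = ((Int.sign (dt a b) : ℤ) : K) * L.sl a b := by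
      unfold Lam.sl
      rw [← mul_assoc, ← Int.cast_mul]
      have : Int.sign (dt a b) * Int.sign (dt a b) = 1 := by
        rcases lt_or_gt_of_ne hd with h1 | h1
        · rw [Int.sign_eq_neg_one_of_neg h1]; norm_num
        · rw [Int.sign_eq_one_of_pos h1]; norm_num
      rw [this]; simp
    rw [e]
    exact B.mul_mem (intCast_mem B _) h

theorem sl_mem (L : Lam G K) (B : Subalgebra ℂ K) {a b : Cusp} (h : L.lam a b ∈ B) :
    L.sl a b ∈ B := B.mul_mem (intCast_mem B _) h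

/-- Pairs `(p, γ ^ k q)`. -/
theorem orbit_mem (hst : StabStatement) (hv : VparStatement) (hG : IsSurface G) (L : Lam G K)
    (B : Subalgebra ℂ K) {z : Cusp} {γ : SLZ} (hγ : γ ∈ G) (hfix : γ • z = z)
    {p q : Cusp} (h1 : L.lam p q ∈ B) (h2 : L.lam z q ∈ B) (h3 : L.lam p z ∈ B)
    (h4 : L.v z ∈ B) (k : ℤ) : L.lam p (γ ^ k • q) ∈ B := by
  obtain ⟨_, _, hs⟩ := hst G hG z
  have hfix' : γ ^ k • z = z := by
    have : γ ∈ MulAction.stabilizer SLZ z := hfix
    exact (MulAction.stabilizer SLZ z).zpow_mem this k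
  obtain ⟨n, hn⟩ := hs (γ ^ k) (G.zpow_mem hγ k) hfix'
  have e : γ ^ k • q = par z (n * width G z) • q := by
    rcases hn with hn | hn
    · rw [hn]
    · rw [hn, neg_smul']
  rw [e]
  apply lam_mem_of_sl
  have key := hv G K L hG z p q n
  set ee := eps (par z (n * width G z)) q with hee
  have h5 : ((ee : ℤ) : K) * ((ee : ℤ) : K) = 1 := by
    rw [← Int.cast_mul, eps_sq]; simp
  have h6 : L.sl p (par z (n * width G z) • q) =
      ((ee : ℤ) : K) * (L.sl p q + n * L.v z * L.sl z q * L.sl p z) := by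
    rw [← key, ← mul_assoc, h5, one_mul]
  rw [h6]
  refine B.mul_mem (intCast_mem B _) (B.add_mem (sl_mem L B h1) ?_)
  exact B.mul_mem (B.mul_mem (B.mul_mem (intCast_mem B _) h4) (sl_mem L B h2)) (sl_mem L B h3)

/-- The families `S` (radii) and `F1` (edges of `F` and the sides). -/
def RadS (G : Subgroup SLZ) (z w v : Cusp) : Cusp → Cusp → Prop :=
  fun a b => SameArc G z w a b ∨ SameArc G z v a b

theorem radS_sub {ι : Type} {T : Fam ι} {z w v : Cusp} (h1 : T.E G z w) (h2 : T.E G z v) :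
    SubE G T (RadS G z w v) := by
  refine ⟨?_, ?_⟩
  · rintro a b (h | h)
    · exact h1.same h
    · exact h2.same h
  · rintro a b c d hs (h | h)
    · exact Or.inl (h.trans hs)
    · exact Or.inr (h.trans hs)

theorem addArc_sub {ι : Type} {T : Fam ι} {F : Cusp → Cusp → Prop} (hF : SubE G T F)
    {p q : Cusp} (h : T.E G p q) : SubE G T (AddArc G F p q) := by
  refine ⟨?_, ?_⟩
  · rintro a b (h' | h')
    · exact hF.sub _ _ h'
    · exact h.same h'
  · rintro a b c d hs (h' | h')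
    · exact Or.inl (hF.inv _ _ _ _ hs h')
    · exact Or.inr (h'.trans hs)

/-- Independence of the monomials in the radii. -/
theorem indep2 (hik : IndkStatement) (hG : IsSurface G) (L : Lam G K) {ι : Type} [Fintype ι]
    {T : Fam ι} (hT : T.IsTri G) {z w v : Cusp} (h1 : T.E G z w) (h2 : T.E G z v)
    (hne : ¬ SameArc G z w z v) :
    ∀ (s : Finset (ℤ × ℤ)) (k : ℤ × ℤ → K), (∀ m ∈ s, k m ∈
      IntermediateField.adjoin ℂ {u : K | ∃ a b, T.E G a b ∧ ¬ RadS G z w v a b ∧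
        u = L.lam a b}) →
      ∑ m ∈ s, k m * (L.lam z w ^ m.1 * L.lam z v ^ m.2) = 0 → ∀ m ∈ s, k m = 0 := by
  classical
  intro s k hk hsum
  obtain ⟨i, hi⟩ := h1
  obtain ⟨j, hj⟩ := h2
  have hij : i ≠ j := by
    rintro rfl
    exact hne (hi.symm.trans hj)
  set φ : ℤ × ℤ → (ι → ℤ) := fun m => Pi.single i m.1 + Pi.single j m.2 with hφ
  have hφi : ∀ m, φ m i = m.1 := by
    intro m; simp [hφ, hij]
  have hφj : ∀ m, φ m j = m.2 := by
    intro m; simp [hφ, hij.symm]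
  have hφo : ∀ m l, l ≠ i → l ≠ j → φ m l = 0 := by
    intro m l h h'; simp [hφ, h, h']
  have hinj : Function.Injective φ := by
    intro m m' h
    apply Prod.ext
    · rw [← hφi m, ← hφi m', h]
    · rw [← hφj m, ← hφj m', h]
  have hmon : ∀ m, L.mon T (φ m) = L.lam z w ^ m.1 * L.lam z v ^ m.2 := by
    intro m
    unfold Lam.mon
    rw [← Finset.mul_prod_erase Finset.univ _ (Finset.mem_univ i),
      ← Finset.mul_prod_erase (Finset.univ.erase i) _
        (Finset.mem_erase.2 ⟨hij.symm, Finset.mem_univ j⟩),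
      Finset.prod_eq_one, mul_one, hφi, hφj, ← lam_same L hi, ← lam_same L hj]
    intro l hl
    have h1 := Finset.mem_erase.1 hl
    have h2 := Finset.mem_erase.1 h1.2
    rw [hφo m l h2.1 h1.1, zpow_zero]
  have key := hik G K L hG ι T hT (RadS G z w v) (radS_sub ⟨i, hi⟩ ⟨j, hj⟩) (s.image φ)
    (fun m => k (m i, m j)) ?_ ?_ ?_
  · intro m hm
    have := key (φ m) (Finset.mem_image_of_mem φ hm)
    simpa only [hφi, hφj] using this
  · intro m hm l hl
    obtain ⟨m', _, rfl⟩ := Finset.mem_image.1 hm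
    apply hφo
    · rintro rfl; exact hl (Or.inl hi.symm)
    · rintro rfl; exact hl (Or.inr hj.symm)
  · intro m hm
    obtain ⟨m', hm', rfl⟩ := Finset.mem_image.1 hm
    simp only [hφi, hφj]
    exact hk m' hm'
  · rw [Finset.sum_image (fun a _ b _ h => hinj h), ← hsum]
    apply Finset.sum_congr rfl
    intro m _
    rw [hmon, hφi, hφj]

theorem casea2 (h2 : Hart2Statement) (hik : IndkStatement) (hl : LobeStatement)
    (hcut : CutStatement) (hda : DigonaStatement) (hdb : DigonbStatement) (hdc : DigoncStatement)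
    (hho : HoroStatement) (hv : VparStatement) (hst : StabStatement) (hvi : VinvStatement)
    (hnz : NonzeroStatement) : CaseA2Statement := by
  intro G K _ _ L hG ι _ T z w v γ hD F hF hwv hNo f hf1 hf2
  obtain ⟨hne, htri⟩ := hda G hG ι T z w v γ hD
  have hT := hD.tri
  have hx0 : L.lam z w ≠ 0 := hnz G K L hG z w (hT.ne' hD.zw)
  have hy0 : L.lam z v ≠ 0 := hnz G K L hG z v (hT.ne' hD.zv)
  have hv0 : L.v z ≠ 0 := (hvi G K L hG).2 z
  have hor : L.v z * L.lam z w * L.lam z v = L.lam w v + L.lam v (γ • w) :=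
    hho G K L hG z w v γ hD.mem hD.fix hD.gen hD.cross
  set x := L.lam z w with hx
  set y := L.lam z v with hy
  set c := L.lam w v + L.lam v (γ • w) with hc
  have hc0 : c ≠ 0 := by
    rw [← hor]; exact mul_ne_zero (mul_ne_zero hv0 hx0) hy0
  have hcv : c / (x * y) = L.v z := by
    rw [← hor]; field_simp
  set F1 := AddArc G F v (γ • w) with hF1
  have hS := radS_sub hD.zw hD.zv
  have hF1s : SubE G T F1 := addArc_sub hF hD.vw
  have hFS : ∀ a b, F1 a b → ¬ RadS G z w v a b := by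
    rintro a b (h | h) (h' | h')
    · exact (hNo _).1 (hF.inv _ _ _ _ h'.symm h)
    · exact (hNo _).1 (hF.inv _ _ _ _ h'.symm h)
    · obtain ⟨g, hg, ⟨e1, e2⟩ | ⟨e1, e2⟩⟩ := h'.trans h.symm
      · exact hD.nv g hg e1
      · refine hD.nw (γ⁻¹ * g) (G.mul_mem (G.inv_mem hD.mem) hg) ?_
        rw [mul_smul, e1, inv_smul_smul]
    · obtain ⟨g, hg, ⟨e1, e2⟩ | ⟨e1, e2⟩⟩ := h'.trans h.symm
      · exact hD.nv g hg e1
      · refine hD.nw (γ⁻¹ * g) (G.mul_mem (G.inv_mem hD.mem) hg) ?_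
        rw [mul_smul, e1, inv_smul_smul]
  have hnS1 : ¬ RadS G z w v w v := hFS _ _ (Or.inl hwv)
  have hnS2 : ¬ RadS G z w v v (γ • w) := hFS _ _ (Or.inr (SameArc.refl _ _))
  have hEno : ∀ a b, T.E G a b → ∀ c d, RadS G z w v c d ∨ F1 c d → ¬ Cross a b c d := by
    rintro a b hab c d (h | h)
    · exact hT.nocross _ _ _ _ hab (hS.sub _ _ h)
    · exact hT.nocross _ _ _ _ hab (hF1s.sub _ _ h)
  obtain ⟨lobe1, lobe2⟩ := hl G K L hG ι T hT (RadS G z w v) F1 hS hF1s (by
    intro a b c hab hac hbc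
    rcases htri a b c hab hac hbc with h | h | h
    · exact Or.inl h
    · exact Or.inr (Or.inl (hF.inv _ _ _ _ h hwv))
    · exact Or.inr (Or.inr h))
  set K0 := IntermediateField.adjoin ℂ {u : K | ∃ a b, T.E G a b ∧ ¬ RadS G z w v a b ∧
        u = L.lam a b} with hK0
  set Ds : Set K := {u | ∃ a b, ¬ RadS G z w v a b ∧
      (∀ c d, RadS G z w v c d ∨ F1 c d → ¬ Cross a b c d) ∧ u = L.lam a b} ∪
    {u | ∃ h ∈ G, 2 < |h.1.trace| ∧
      (∀ c d, RadS G z w v c d ∨ F1 c d → 0 < side h c * side h d) ∧ u = L.tr h} ∪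
    {u | ∃ a b, F1 a b ∧ u = (L.lam a b)⁻¹} with hDs
  set D : Subalgebra ℂ K := Algebra.adjoin ℂ Ds with hDdef
  have hDK : (D : Set K) ⊆ K0 := by
    have : D ≤ K0.toSubalgebra := by
      apply Algebra.adjoin_le
      rintro u ((⟨a, b, h1, h3, rfl⟩ | ⟨h, h1, h3, h4, rfl⟩) | ⟨a, b, h1, rfl⟩)
      · exact lobe1 a b h1 h3
      · exact lobe2 h h1 h3 h4
      · exact K0.inv_mem (IntermediateField.subset_adjoin ℂ _
          ⟨a, b, hF1s.sub _ _ h1, hFS _ _ h1, rfl⟩)
    exact this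
  have hw_v : L.lam w v ∈ D :=
    Algebra.subset_adjoin (Or.inl (Or.inl ⟨w, v, hnS1, hEno _ _ hD.wv, rfl⟩))
  have hv_w : L.lam v (γ • w) ∈ D :=
    Algebra.subset_adjoin (Or.inl (Or.inl ⟨v, γ • w, hnS2, hEno _ _ hD.vw, rfl⟩))
  have hcD : c ∈ D := D.add_mem hw_v hv_w
  set A : Subalgebra ℂ K := Algebra.adjoin ℂ ((D : Set K) ∪ {x, y, c / (x * y)}) with hA
  have hDA : D ≤ A := fun u hu => Algebra.subset_adjoin (Or.inl hu)
  have hxA : x ∈ A := Algebra.subset_adjoin (Or.inr (by simp))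
  have hyA : y ∈ A := Algebra.subset_adjoin (Or.inr (by simp))
  have hvA : L.v z ∈ A := by
    rw [← hcv]; exact Algebra.subset_adjoin (Or.inr (by simp))
  have hF1A : ∀ a b, F1 a b → (L.lam a b)⁻¹ ∈ A := fun a b h =>
    hDA (Algebra.subset_adjoin (Or.inr ⟨a, b, h, rfl⟩))
  -- the ring `R` is contained in `A`
  have hRA : L.RA ≤ A := by
    set Q : Fam {i : ι // F1 (T.s i) (T.t i)} := ⟨fun i => T.s i.1, fun i => T.t i.1⟩ with hQ
    have hQE : ∀ a b, Q.E G a b ↔ F1 a b := by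
      intro a b
      constructor
      · rintro ⟨⟨i, hi⟩, h⟩
        exact hF1s.inv _ _ _ _ h hi
      · intro h
        obtain ⟨i, hi⟩ := hF1s.sub _ _ h
        exact ⟨⟨i, hF1s.inv _ _ _ _ hi.symm h⟩, hi⟩
    have hQn : Q.NonCross G := by
      refine ⟨fun i => hT.ne i.1, fun a b c d h h' => ?_⟩
      exact hT.nocross _ _ _ _ (hF1s.sub _ _ ((hQE _ _).1 h)) (hF1s.sub _ _ ((hQE _ _).1 h'))
    refine hcut G K L hG _ Q hQn A (fun a b h => hF1A a b ((hQE a b).1 h)) ?_
    have hle : L.RR (Q.E G) ≤ A := by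
      apply Algebra.adjoin_le
      rintro u (⟨a, b, hab, rfl⟩ | ⟨g, hg, htr, hgs, rfl⟩)
      · by_cases hSab : RadS G z w v a b
        · rcases hSab with h | h
          · rw [lam_same L h]; exact hxA
          · rw [lam_same L h]; exact hyA
        · by_cases hcr : ∃ c d, RadS G z w v c d ∧ Cross a b c d
          · obtain ⟨g, hg, i, j, h3, h4⟩ := hdb G hG ι T z w v γ hD a b (by
              rintro c d (h | h)
              · exact hab c d ((hQE c d).2 (Or.inl (hF.inv _ _ _ _ h hwv)))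
              · exact hab c d ((hQE c d).2 (Or.inr h))) hcr
            have e : L.lam a b = L.lam (g • a) (g • b) := (L.inv g hg a b).symm
            rw [e]
            have e2 : ∀ p q : Cusp, L.lam (γ ^ i • p) (γ ^ j • q) =
                L.lam p (γ ^ (j - i) • q) := by
              intro p q
              rw [← L.inv (γ ^ i) (G.zpow_mem hD.mem i) p, ← mul_smul, ← _root_.zpow_add]
              congr 3
              ring
            have hwvA : L.lam w v ∈ A := hDA hw_v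
            have hvwA : L.lam v w ∈ A := by rw [L.symm]; exact hwvA
            have hwwA : L.lam w w ∈ A := by rw [L.self]; exact A.zero_mem
            have hvvA : L.lam v v ∈ A := by rw [L.self]; exact A.zero_mem
            have hwz : L.lam w z ∈ A := by rw [L.symm]; exact hxA
            have hvz : L.lam v z ∈ A := by rw [L.symm]; exact hyA
            rcases h3 with h3 | h3 <;> rcases h4 with h4 | h4 <;> rw [h3, h4, e2]
            · exact orbit_mem hst hv hG L A hD.mem hD.fix hwwA hxA hwz hvA _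
            · exact orbit_mem hst hv hG L A hD.mem hD.fix hwvA hyA hwz hvA _
            · exact orbit_mem hst hv hG L A hD.mem hD.fix hvwA hxA hvz hvA _
            · exact orbit_mem hst hv hG L A hD.mem hD.fix hvvA hyA hvz hvA _
          · push Not at hcr
            refine hDA (Algebra.subset_adjoin (Or.inl (Or.inl ⟨a, b, hSab, ?_, rfl⟩)))
            rintro c d (h | h)
            · exact hcr c d h
            · exact hab c d ((hQE c d).2 h)
      · have h3 := hdc G hG ι T z w v γ hD g hg htr (by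
          rintro c d (h | h)
          · exact hgs c d ((hQE c d).2 (Or.inl (hF.inv _ _ _ _ h hwv)))
          · exact hgs c d ((hQE c d).2 (Or.inr h)))
        refine hDA (Algebra.subset_adjoin (Or.inl (Or.inr ⟨g, hg, htr, ?_, rfl⟩)))
        rintro c d (h | h)
        · exact h3 c d h
        · exact hgs c d ((hQE c d).2 h)
    exact hle
  have hRI1 : L.RI F1 ≤ A := by
    apply Algebra.adjoin_le
    rintro u (hu | ⟨a, b, h, rfl⟩)
    · exact hRA hu
    · exact hF1A a b h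
  have hRI : L.RI F ≤ A := (RI_mono L (fun a b h => Or.inl h)).trans hRI1
  -- Hartogs
  obtain ⟨N1, hN1⟩ := ri_pow L hf1
  obtain ⟨N2, hN2⟩ := ri_pow L hf2
  have hfA : f ∈ A := by
    refine h2 K K0 D x y c hx0 hy0 hc0 hDK hcD
      (indep2 hik hG L hT hD.zw hD.zv hne) f (N1 + N2) ?_ ?_
    · rw [show x ^ (N1 + N2) * f = x ^ N2 * (x ^ N1 * f) by ring]
      exact A.mul_mem (A.pow_mem hxA _) (hRI hN1)
    · rw [show y ^ (N1 + N2) * f = y ^ N1 * (y ^ N2 * f) by ring]
      exact A.mul_mem (A.pow_mem hyA _) (hRI hN2)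
  -- `A` is contained in `R[1/F1][v]`
  have hAB : A ≤ Algebra.adjoin ℂ ((L.RI F1 : Set K) ∪ {L.v z}) := by
    have hle : L.RI F1 ≤ Algebra.adjoin ℂ ((L.RI F1 : Set K) ∪ {L.v z}) := fun u hu =>
      Algebra.subset_adjoin (Or.inl hu)
    apply Algebra.adjoin_le
    rintro u (hu | hu)
    · refine hle ?_
      have hDle : D ≤ L.RI F1 := by
        apply Algebra.adjoin_le
        rintro u ((⟨a, b, h1, h3, rfl⟩ | ⟨h, h1, h3, h4, rfl⟩) | ⟨a, b, h1, rfl⟩)
        · exact RA_le_RI L F1 (lam_mem_RA L a b)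
        · exact RA_le_RI L F1 (tr_mem_RA L h1 h3)
        · exact inv_mem_RI L h1
      exact hDle hu
    · simp only [Set.mem_insert_iff, Set.mem_singleton_iff] at hu
      rcases hu with rfl | rfl | rfl
      · exact hle (RA_le_RI L F1 (lam_mem_RA L z w))
      · exact hle (RA_le_RI L F1 (lam_mem_RA L z v))
      · rw [hcv]; exact Algebra.subset_adjoin (Or.inr rfl)
  -- the last step
  set B : Subalgebra ℂ K := Algebra.adjoin ℂ ((L.RI F : Set K) ∪ {L.v z}) with hB
  have hRB : L.RI F ≤ B := fun u hu => Algebra.subset_adjoin (Or.inl hu)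
  have hvB : L.v z ∈ B := Algebra.subset_adjoin (Or.inr rfl)
  have hxB : x ∈ B := hRB (RA_le_RI L F (lam_mem_RA L z w))
  have hyB : y ∈ B := hRB (RA_le_RI L F (lam_mem_RA L z v))
  have hgB : L.lam v (γ • w) ∈ B := hRB (RA_le_RI L F (lam_mem_RA L _ _))
  obtain ⟨M, hM⟩ := riv_pow L (hAB hfA)
  have hsum : L.v z * x * y + -L.lam v (γ • w) = L.lam w v := by
    rw [hor]; ring
  refine unit_step (a := L.v z * x * y) (b := -L.lam v (γ • w))
    (B.mul_mem (B.mul_mem hvB hxB) hyB) (B.neg_mem hgB) ?_ ?_ ?_ ?_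
  · refine ⟨N1, ?_⟩
    rw [show (L.v z * x * y) ^ N1 * f = (L.v z * y) ^ N1 * (x ^ N1 * f) by ring]
    exact B.mul_mem (B.pow_mem (B.mul_mem hvB hyB) _) (hRB hN1)
  · refine ⟨M, ?_⟩
    rw [neg_pow, mul_assoc]
    exact B.mul_mem (B.pow_mem (B.neg_mem B.one_mem) _) hM
  · rw [hsum]; exact hRB (inv_mem_RI L hwv)
  · rw [hsum]; exact hnz G K L hG w v (hT.ne' hD.wv)

end Pool.Agent.Lib.MP_eee7a8_ag.TB.C49
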